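import Mathlib
import Pool.Agent.Run7.h720.NNf

set_option autoImplicit false

/-!
# The abcd conjecture over number fields at all sparse points, without exceptional set

`K` is a number field, `n ≥ 3`. We consider the points `z = (z_0 : … : z_(n-1))` over `K` of the
hyperplane `z_0 + … + z_(n-1) = 0` such that no nonempty proper subsum vanishes (in particular, all
coordinates are different from zero). At these points we prove an inequality as in the abcd conjecture,
with the constant `(n - 1) * (n - 2) / 2 + ε` and without an exceptional closed subset.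
-/

namespace Pool.Agent.Results.MP_7475bd_nt.SparsePointsNoExceptionalSet

open NumberField IsDedekindDomain Height
open Pool.Agent.K1H83.VN

variable {K : Type} [Field K] [NumberField K]

/-- The absolute logarithmic height `h(P)` of the point `P` with the coordinates `z`. -/
noncomputable def height {m : ℕ} (z : Fin m → K) : ℝ :=
  logHeight z / Module.finrank ℚ K

open Classical in
/-- The contribution of the prime `v` to the radical: the logarithm of the norm of `v` if the
`ord_v (z_j)` are not all equal, and zero otherwise. -/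
noncomputable def localRad {m : ℕ} (v : HeightOneSpectrum (𝓞 K)) (z : Fin m → K) : ℝ :=
  if ∃ i j, FinitePlace.mk v (z i) ≠ FinitePlace.mk v (z j) then
    Real.log (Ideal.absNorm v.asIdeal : ℝ) else 0

/-- `rad(P)` -/
noncomputable def rad {m : ℕ} (z : Fin m → K) : ℝ :=
  (∑ᶠ v : HeightOneSpectrum (𝓞 K), localRad v z) / Module.finrank ℚ K

/-- `ord_v (z)` times the logarithm of the norm of the prime `v`. -/
noncomputable def ord (v : HeightOneSpectrum (𝓞 K)) (z : K) : ℝ := -Real.log (FinitePlace.mk v z)

/-- The order of the product `z_0 ⋯ z_(m-1)` at the prime `v` for coprime coordinates, times the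
logarithm of the norm of `v`: the sum over `i` of `ord_v (z_i) - min_j ord_v (z_j)`, times this
logarithm. (Mathlib's absolute value at `v` of `z` is the norm of `v` to the power
`-ord_v (z)`.) -/
noncomputable def divisorOrder {m : ℕ} (v : HeightOneSpectrum (𝓞 K)) (z : Fin m → K) : ℝ :=
  ∑ i, Real.log ((⨆ j, FinitePlace.mk v (z j)) / FinitePlace.mk v (z i))

/-- The absolute counting function of the zeros of `z` outside `T`: the sum of the `ord v z` over the
primes `v` outside `T`, divided by the degree of `K`. -/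
noncomputable def counting (T : Set (HeightOneSpectrum (𝓞 K))) (z : K) : ℝ :=
  (∑ᶠ (v : HeightOneSpectrum (𝓞 K)) (_ : v ∉ T), ord v z) / Module.finrank ℚ K

/-- `z` is a sum of `r` terms `c * γ` with `γ` in `Γ` and `c` of (multiplicative, relative) height at
most `R`. -/
def IsShort (Γ : Subgroup Kˣ) (r : ℕ) (R : ℝ) (z : K) : Prop :=
  ∃ (c : Fin r → K) (γ : Fin r → Kˣ), (∀ j, γ j ∈ Γ) ∧ (∀ j, mulHeight₁ (c j) ≤ R) ∧
    z = ∑ j, c j * (γ j : K)

/-- The vector `x` is a sum of `r` terms `γ • c` with `γ` in `Γ` and `c` a vector with entries of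
(multiplicative, relative) height at most `R`. -/
def IsShortPoint {m : ℕ} (Γ : Subgroup Kˣ) (r : ℕ) (R : ℝ) (x : Fin m → K) : Prop :=
  ∃ (c : Fin r → Fin m → K) (γ : Fin r → Kˣ), (∀ j, γ j ∈ Γ) ∧ (∀ j i, mulHeight₁ (c j i) ≤ R) ∧
    ∀ i, x i = ∑ j, c j i * (γ j : K)

/-! ### Auxiliary lemmas -/

theorem localRad_nonneg {m : ℕ} (v : HeightOneSpectrum (𝓞 K)) (z : Fin m → K) :
    0 ≤ localRad v z := by
  unfold localRad
  split_ifs
  · refine Real.log_nonneg ?_
    have h5 : Ideal.absNorm v.asIdeal ≠ 0 := fun h => v.ne_bot (Ideal.absNorm_eq_zero_iff.1 h)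
    exact_mod_cast Nat.one_le_iff_ne_zero.2 h5
  · exact le_rfl

theorem localRad_support {m : ℕ} (z : Fin m → K) (hz : ∀ i, z i ≠ 0) :
    (Function.support fun v : HeightOneSpectrum (𝓞 K) => localRad v z).Finite := by
  have hfin : (⋃ i, {v : HeightOneSpectrum (𝓞 K) | Pool.Agent.W180.OP.fv v (z i) ≠ 1}).Finite :=
    Set.finite_iUnion fun i => Pool.Agent.W180.OP.fv_support_finite (hz i)
  refine hfin.subset fun v hv => ?_
  by_contra hcon
  rw [Set.mem_iUnion] at hcon
  push Not at hcon
  apply hv
  show localRad v z = 0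
  unfold localRad
  rw [if_neg]
  push Not
  intro i j
  have h1 : FinitePlace.mk v (z i) = 1 := not_not.1 (hcon i)
  have h2 : FinitePlace.mk v (z j) = 1 := not_not.1 (hcon j)
  rw [h1, h2]

/-- **Main theorem.** Let `K` be a number field, `n ≥ 3`, `T` a finite set of primes of `K`, `Γ` a
finitely generated subgroup of the multiplicative group of `K`, `r` and `M` natural numbers, `B` and
`ε > 0` real numbers. There are `δ > 0` and a constant `C` such that the following holds for all
points `z` of the hyperplane `z_0 + ⋯ + z_(n-1) = 0` with coordinates in `K` without vanishing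
nonempty proper subsums, and all nonzero `ρ` and `τ` in `K`, integral outside `T`, such that `z` and
`ρ` are sums of `r` terms with coefficients of height at most `B H(z) ^ δ` and the product of the
coordinates divides `ρ ^ M τ` outside `T` (for coprime coordinates; see `divisorOrder`):
* `h(z) ≤ ((n - 1) * (n - 2) / 2 + ε) * (N_T(ρ) + N_T(τ)) + C`;
* if `ρ` has at most simple zeros outside `T`, at primes at which the coordinates do not all have the
  same order, then `h(z) ≤ ((n - 1) * (n - 2) / 2 + ε) * (rad(z) + N_T(τ)) + C`. -/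
theorem result (K : Type) [Field K] [NumberField K] (n : ℕ) (hn : 3 ≤ n)
    (T : Set (HeightOneSpectrum (𝓞 K))) (hT : T.Finite) (Γ : Subgroup Kˣ) (hΓ : Γ.FG)
    (r M : ℕ) (B ε : ℝ) (hε : 0 < ε) :
    ∃ δ C : ℝ, 0 < δ ∧ ∀ (z : Fin n → K) (ρ τ : K), ∑ i, z i = 0 →
      (∀ U : Finset (Fin n), U.Nonempty → U ≠ Finset.univ → ∑ i ∈ U, z i ≠ 0) →
        ρ ≠ 0 → τ ≠ 0 → (∀ v ∉ T, 0 ≤ ord v ρ) → (∀ v ∉ T, 0 ≤ ord v τ) →
        IsShortPoint Γ r (B * mulHeight z ^ δ) z → IsShort Γ r (B * mulHeight z ^ δ) ρ →
        (∀ v ∉ T, divisorOrder v z ≤ M * ord v ρ + ord v τ) →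
        height z ≤ (((n : ℝ) - 1) * ((n : ℝ) - 2) / 2 + ε) * (counting T ρ + counting T τ) + C ∧
          ((∀ v ∉ T, ord v ρ ≤ localRad v z) →
            height z ≤ (((n : ℝ) - 1) * ((n : ℝ) - 2) / 2 + ε) * (rad z + counting T τ) + C) := by
  classical
  obtain ⟨δ, C, hδ, hmain⟩ := Pool.Agent.Run7.h720.nterm_nf K Γ hΓ T hT n r M hn B ε hε
  have hd : (0 : ℝ) < Module.finrank ℚ K := by
    exact_mod_cast Module.finrank_pos
  have hE : (((n - 1) * (n - 2) / 2 : ℕ) : ℝ) = ((n : ℝ) - 1) * ((n : ℝ) - 2) / 2 := by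
    have h3 : 2 * ((n - 1) * (n - 2) / 2) = (n - 1) * (n - 2) := by
      have h4 := Nat.even_mul_pred_self (n - 1)
      rw [Nat.sub_sub] at h4
      exact Nat.mul_div_cancel' h4.two_dvd
    have h4 : (2 : ℝ) * (((n - 1) * (n - 2) / 2 : ℕ) : ℝ) = ((n : ℝ) - 1) * ((n : ℝ) - 2) := by
      have h5 : (((2 * ((n - 1) * (n - 2) / 2) : ℕ)) : ℝ) = (((n - 1) * (n - 2) : ℕ) : ℝ) := by
        rw [h3]
      rw [Nat.cast_mul, Nat.cast_mul, Nat.cast_sub (by omega), Nat.cast_sub (by omega)] at h5
      push_cast at h5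
      exact h5
    linarith
  obtain ⟨E, hE'⟩ : ∃ E : ℝ, E = ((n : ℝ) - 1) * ((n : ℝ) - 2) / 2 := ⟨_, rfl⟩
  have hE0 : 0 ≤ E := by
    rw [hE', ← hE]
    exact Nat.cast_nonneg _
  rw [hE, ← hE'] at hmain
  rw [← hE']
  refine ⟨δ, |C| / Module.finrank ℚ K, hδ, ?_⟩
  intro z ρ τ hsum hns hρ0 hτ0 hρT hτT hsz hsρ hdiv
  have hord : ∀ (v : HeightOneSpectrum (𝓞 K)) (z : K), z ≠ 0 → 0 ≤ ord v z →
      Pool.Agent.W180.OP.fv v z ≤ 1 := by
    intro v z hz hv
    have h1 : ord v z = -Real.log (Pool.Agent.W180.OP.fv v z) := rfl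
    rw [h1] at hv
    by_contra hcon
    push Not at hcon
    have := Real.log_pos hcon
    linarith
  have hz : ∀ i, z i ≠ 0 := by
    intro i
    have h1 := hns {i} (Finset.singleton_nonempty i) (by
      intro h2
      have h3 := congrArg Finset.card h2
      rw [Finset.card_singleton, Finset.card_fin] at h3
      omega)
    rwa [Finset.sum_singleton] at h1
  have key := hmain z ρ τ hsum hns hρ0 hτ0 (fun v hv => hord v ρ hρ0 (hρT v hv))
    (fun v hv => hord v τ hτ0 (hτT v hv)) hsz hsρ (by
      intro v hv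
      have h1 := hdiv v hv
      have h2 : (M : ℝ) * ord v ρ + ord v τ =
          -(M * Real.log (Pool.Agent.W180.OP.fv v ρ) +
            Real.log (Pool.Agent.W180.OP.fv v τ)) := by
        have e1 : ord v ρ = -Real.log (Pool.Agent.W180.OP.fv v ρ) := rfl
        have e2 : ord v τ = -Real.log (Pool.Agent.W180.OP.fv v τ) := rfl
        rw [e1, e2]
        ring
      rw [h2] at h1
      exact h1)
  -- the inequality for the relative height
  have hcnt : ∀ x : K, Pool.Agent.Run7.h720.cnt T x = Module.finrank ℚ K * counting T x := by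
    intro x
    unfold counting
    rw [mul_div_cancel₀ _ hd.ne']
    rfl
  have hh : logHeight z = Module.finrank ℚ K * height z := by
    unfold height
    rw [mul_div_cancel₀ _ hd.ne']
  rw [hcnt, hcnt, hh] at key
  have hC := le_abs_self C
  have hCd : |C| = Module.finrank ℚ K * (|C| / Module.finrank ℚ K) := by
    rw [mul_div_cancel₀ _ hd.ne']
  have hfirst : height z ≤ (E + ε) * (counting T ρ + counting T τ) +
      |C| / Module.finrank ℚ K := by
    refine le_of_mul_le_mul_left ?_ hd
    have h2 : (Module.finrank ℚ K : ℝ) *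
        ((E + ε) * (counting T ρ + counting T τ) + |C| / Module.finrank ℚ K) =
        (E + ε) * (Module.finrank ℚ K * counting T ρ + Module.finrank ℚ K * counting T τ) +
            Module.finrank ℚ K * (|C| / Module.finrank ℚ K) := by ring
    rw [h2, ← hCd]
    linarith
  refine ⟨hfirst, fun hle => hfirst.trans ?_⟩
  have h5 : counting T ρ ≤ rad z := by
    unfold counting rad
    refine div_le_div_of_nonneg_right ?_ hd.le
    refine finsum_le_finsum' ?_ (localRad_support z hz) fun v => ?_
    · refine (Pool.Agent.Run7.h720.log_fv_support ρ hρ0).subset fun v hv h => hv ?_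
      have h2 : Real.log (Pool.Agent.W180.OP.fv v ρ) = 0 := h
      have h3 : ord v ρ = 0 := by
        show -Real.log (Pool.Agent.W180.OP.fv v ρ) = 0
        rw [h2, neg_zero]
      show ∑ᶠ (_ : v ∉ T), ord v ρ = 0
      rw [h3]
      exact finsum_zero
    · rw [finsum_eq_if]
      split_ifs with hv
      · exact localRad_nonneg v z
      · exact hle v hv
  have h6 : (E + ε) * (counting T ρ + counting T τ) ≤ (E + ε) * (rad z + counting T τ) :=
    mul_le_mul_of_nonneg_left (by linarith) (by linarith)
  linarith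

end Pool.Agent.Results.MP_7475bd_nt.SparsePointsNoExceptionalSet
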