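import Mathlib
import Pool.Agent.Run7.h720.VMain

set_option autoImplicit false

/-!
# The abcd conjecture over number fields at the sparse points with a sparse multiple of the radical

`K` is a number field, `n ≥ 1`. We consider the points `z = (z_0 : … : z_(n+1))` over `K` of the
hyperplane `z_0 + … + z_(n+1) = 0` with all coordinates different from zero; these are the `N`-term
relations with `N = n + 2 ≥ 3`.
-/

namespace Pool.Agent.Results.MP_7475bd_nt.SparsePointsNumberFields

open MvPolynomial NumberField IsDedekindDomain Height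
open Pool.Agent.K1H83.VN

variable {K : Type} [Field K] [NumberField K]

/-- The absolute logarithmic height `h(P)` of the point `P` with the coordinates `z`. -/
noncomputable def height {m : ℕ} (z : Fin m → K) : ℝ :=
  logHeight z / Module.finrank ℚ K

open Classical in
/-- The contribution of the prime `v` to the radical: the logarithm of the norm of `v` if the
`ord_v (z_j)` are not all equal, and zero otherwise. -/
noncomputable def localRad {m : ℕ} (v : HeightOneSpectrum (𝓞 K)) (z : Fin m → K) : ℝ :=
  if ∃ i j, FinitePlace.mk v (z i) ≠ FinitePlace.mk v (z j) then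
    Real.log (Ideal.absNorm v.asIdeal : ℝ) else 0

/-- `rad(P)` -/
noncomputable def rad {m : ℕ} (z : Fin m → K) : ℝ :=
  (∑ᶠ v : HeightOneSpectrum (𝓞 K), localRad v z) / Module.finrank ℚ K

/-- `ord_v (z)` times the logarithm of the norm of the prime `v`. -/
noncomputable def ord (v : HeightOneSpectrum (𝓞 K)) (z : K) : ℝ := -Real.log (FinitePlace.mk v z)

/-- The order of the product `z_0 ⋯ z_(m-1)` at the prime `v` for coprime coordinates, times the
logarithm of the norm of `v`: the sum over `i` of `ord_v (z_i) - min_j ord_v (z_j)`, times this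
logarithm. (Mathlib's absolute value at `v` of `z` is the norm of `v` to the power
`-ord_v (z)`.) -/
noncomputable def divisorOrder {m : ℕ} (v : HeightOneSpectrum (𝓞 K)) (z : Fin m → K) : ℝ :=
  ∑ i, Real.log ((⨆ j, FinitePlace.mk v (z j)) / FinitePlace.mk v (z i))

/-- The absolute counting function of the zeros of `z` outside `T`: the sum of the `ord v z` over the
primes `v` outside `T`, divided by the degree of `K`. -/
noncomputable def counting (T : Set (HeightOneSpectrum (𝓞 K))) (z : K) : ℝ :=
  (∑ᶠ (v : HeightOneSpectrum (𝓞 K)) (_ : v ∉ T), ord v z) / Module.finrank ℚ K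

/-- `z` is a sum of `r` terms `c * γ` with `γ` in `Γ` and `c` of (multiplicative, relative) height at
most `R`. -/
def IsShort (Γ : Subgroup Kˣ) (r : ℕ) (R : ℝ) (z : K) : Prop :=
  ∃ (c : Fin r → K) (γ : Fin r → Kˣ), (∀ j, γ j ∈ Γ) ∧ (∀ j, mulHeight₁ (c j) ≤ R) ∧
    z = ∑ j, c j * (γ j : K)

/-- The vector `x` is a sum of `r` terms `γ • c` with `γ` in `Γ` and `c` a vector with entries of
(multiplicative, relative) height at most `R`. -/
def IsShortPoint {m : ℕ} (Γ : Subgroup Kˣ) (r : ℕ) (R : ℝ) (x : Fin m → K) : Prop :=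
  ∃ (c : Fin r → Fin m → K) (γ : Fin r → Kˣ), (∀ j, γ j ∈ Γ) ∧ (∀ j i, mulHeight₁ (c j i) ≤ R) ∧
    ∀ i, x i = ∑ j, c j i * (γ j : K)

/-! ### Auxiliary lemmas -/

omit [NumberField K] in
/-- the hyperplane and the coordinate hyperplanes have normal crossings -/
theorem smPair (n : ℕ) : Pool.Agent.Run7.h720.SmPair 1
    (fun _ : Fin 1 => (∑ i, X i : MvPolynomial (Fin (n + 2)) K))
    (fun (i : Fin (n + 2)) (_ : Fin 1) => (X i : MvPolynomial (Fin (n + 2)) K)) := by
  classical
  intro L _ _ z hz _
  refine ⟨id, fun _ => 0, ?_⟩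
  obtain ⟨j0, hj0⟩ : ∃ j, z j ≠ 0 := Function.ne_iff.1 hz
  rw [Fintype.linearIndependent_iff]
  intro c hc
  rw [Fintype.sum_sum_type] at hc
  have hG : ∀ y : Fin (n + 2), aeval z (pderiv y (∑ i, X i : MvPolynomial (Fin (n + 2)) K)) =
      1 := by
    intro y
    rw [map_sum, map_sum]
    simp only [pderiv_X]
    rw [Finset.sum_eq_single y]
    · rw [Pi.single_eq_same, map_one]
    · intro b _ hb
      rw [Pi.single_eq_of_ne hb, map_zero]
    · intro h
      exact absurd (Finset.mem_univ y) h
  have hF : ∀ i y : Fin (n + 2), aeval z (pderiv y (X i : MvPolynomial (Fin (n + 2)) K)) =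
      if i = y then 1 else 0 := by
    intro i y
    rw [pderiv_X]
    by_cases h : i = y
    · rw [if_pos h, h, Pi.single_eq_same, map_one]
    · rw [if_neg h, Pi.single_eq_of_ne h, map_zero]
  have hval : ∀ y : Fin (n + 2), c (Sum.inl 0) +
      ∑ i : {i : Fin (n + 2) // ∀ j : Fin 1, aeval z (X i : MvPolynomial (Fin (n + 2)) K) = 0},
        c (Sum.inr i) * (if i.1 = y then 1 else 0) = 0 := by
    intro y
    have h1 := congrFun hc y
    rw [Pi.add_apply, Finset.sum_apply, Finset.sum_apply, Fin.sum_univ_one] at h1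
    simp only [Pi.smul_apply, Sum.elim_inl, Sum.elim_inr, smul_eq_mul, hG, hF, mul_one] at h1
    exact h1
  have h0 : c (Sum.inl 0) = 0 := by
    have h1 := hval j0
    rw [Finset.sum_eq_zero, add_zero] at h1
    · exact h1
    · intro i _
      have h2 : i.1 ≠ j0 := by
        intro h
        have h3 := i.2 0
        rw [aeval_X, h] at h3
        exact hj0 h3
      rw [if_neg h2, mul_zero]
  rintro (i | i)
  · rw [Subsingleton.elim i 0]
    exact h0
  · have h1 := hval i.1
    rw [h0, zero_add, Finset.sum_eq_single i] at h1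
    · rwa [if_pos rfl, mul_one] at h1
    · intro b _ hb
      rw [if_neg (fun h => hb (Subtype.ext h)), mul_zero]
    · intro h
      exact absurd (Finset.mem_univ i) h

/-- a basis of the hyperplane -/
def tb (K : Type) [Field K] (n : ℕ) : Matrix (Fin (n + 2)) (Fin (n + 1)) K :=
  fun j c => if j = Fin.castSucc c then 1 else if j = Fin.last (n + 1) then -1 else 0

omit [NumberField K] in
theorem tb_indep (n : ℕ) :
    LinearIndependent K (fun (c : Fin (n + 1)) (j : Fin (n + 2)) => tb K n j c) := by
  rw [Fintype.linearIndependent_iff]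
  intro g hg i
  have h1 := congrFun hg (Fin.castSucc i)
  rw [Finset.sum_apply, Finset.sum_eq_single i] at h1
  · simpa [tb] using h1
  · intro b _ hb
    have h2 : Fin.castSucc i ≠ Fin.castSucc b := fun h => hb (Fin.castSucc_injective _ h).symm
    have h3 : Fin.castSucc i ≠ Fin.last (n + 1) := (Fin.castSucc_lt_last i).ne
    simp [tb, h2, h3]
  · intro h
    exact absurd (Finset.mem_univ i) h

omit [NumberField K] in
theorem tb_sum (n : ℕ) (c : Fin (n + 1)) : ∑ j, tb K n j c = 0 := by
  rw [Fin.sum_univ_castSucc, Finset.sum_eq_single c]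
  · have h3 : Fin.last (n + 1) ≠ Fin.castSucc c := (Fin.castSucc_lt_last c).ne'
    simp [tb, h3]
  · intro b _ hb
    have h2 : Fin.castSucc b ≠ Fin.castSucc c := fun h => hb (Fin.castSucc_injective _ h)
    have h3 : Fin.castSucc b ≠ Fin.last (n + 1) := (Fin.castSucc_lt_last b).ne
    simp [tb, h2, h3]
  · intro h
    exact absurd (Finset.mem_univ c) h

theorem localRad_nonneg {m : ℕ} (v : HeightOneSpectrum (𝓞 K)) (z : Fin m → K) :
    0 ≤ localRad v z := by
  unfold localRad
  split_ifs
  · refine Real.log_nonneg ?_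
    have h5 : Ideal.absNorm v.asIdeal ≠ 0 := fun h => v.ne_bot (Ideal.absNorm_eq_zero_iff.1 h)
    exact_mod_cast Nat.one_le_iff_ne_zero.2 h5
  · exact le_rfl

theorem localRad_support {m : ℕ} (z : Fin m → K) (hz : ∀ i, z i ≠ 0) :
    (Function.support fun v : HeightOneSpectrum (𝓞 K) => localRad v z).Finite := by
  have hfin : (⋃ i, {v : HeightOneSpectrum (𝓞 K) | Pool.Agent.W180.OP.fv v (z i) ≠ 1}).Finite :=
    Set.finite_iUnion fun i => Pool.Agent.W180.OP.fv_support_finite (hz i)
  refine hfin.subset fun v hv => ?_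
  by_contra hcon
  rw [Set.mem_iUnion] at hcon
  push Not at hcon
  apply hv
  show localRad v z = 0
  unfold localRad
  rw [if_neg]
  push Not
  intro i j
  have h1 : FinitePlace.mk v (z i) = 1 := not_not.1 (hcon i)
  have h2 : FinitePlace.mk v (z j) = 1 := not_not.1 (hcon j)
  rw [h1, h2]

/-- **Main theorem.** Let `K` be a number field, `n ≥ 1`, `T` a finite set of primes of `K`, `Γ` a
finitely generated subgroup of the multiplicative group of `K`, `r` and `M` natural numbers, `B` and
`ε > 0` real numbers. There are `δ > 0`, a nonzero form `G` in `n + 1` variables and a constant `C`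
such that the following holds for all points `z` of the hyperplane `z_0 + ⋯ + z_(n+1) = 0` with
coordinates in `K`, all different from zero, off `G = 0`, and all nonzero `ρ` and `τ` in `K`,
integral outside `T`, such that `z` and `ρ` are sums of `r` terms with coefficients of height at most
`B H(z) ^ δ` and the product of the coordinates divides `ρ ^ M τ` outside `T` (for coprime
coordinates; see `divisorOrder`):
* `h(z) ≤ (1 + ε) (N_T(ρ) + N_T(τ)) + C`;
* if `ρ` has at most simple zeros outside `T`, at primes at which the coordinates do not all have the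
  same order, then `h(z) ≤ (1 + ε) (rad(z) + N_T(τ)) + C`. -/
theorem result (K : Type) [Field K] [NumberField K] (n : ℕ) (hn : 1 ≤ n)
    (T : Set (HeightOneSpectrum (𝓞 K))) (hT : T.Finite) (Γ : Subgroup Kˣ) (hΓ : Γ.FG)
    (r M : ℕ) (B ε : ℝ) (hε : 0 < ε) :
    ∃ (δ : ℝ) (G : MvPolynomial (Fin (n + 1)) K) (k : ℕ) (C : ℝ), 0 < δ ∧ G.IsHomogeneous k ∧
      G ≠ 0 ∧ ∀ (z : Fin (n + 2) → K) (ρ τ : K), (∀ i, z i ≠ 0) → ∑ i, z i = 0 →
        aeval (fun i => z (Fin.castSucc i)) G ≠ 0 → ρ ≠ 0 → τ ≠ 0 →
        (∀ v ∉ T, 0 ≤ ord v ρ) → (∀ v ∉ T, 0 ≤ ord v τ) →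
        IsShortPoint Γ r (B * mulHeight z ^ δ) z → IsShort Γ r (B * mulHeight z ^ δ) ρ →
        (∀ v ∉ T, divisorOrder v z ≤ M * ord v ρ + ord v τ) →
        height z ≤ (1 + ε) * (counting T ρ + counting T τ) + C ∧
          ((∀ v ∉ T, ord v ρ ≤ localRad v z) →
            height z ≤ (1 + ε) * (rad z + counting T τ) + C) := by
  classical
  have hε0 : 0 < ε / (1 + ε) := by positivity
  obtain ⟨Φ, k, δ, C, hΦ0, hΦh, hδ, hmain⟩ := Pool.Agent.Run7.h720.var_main K Γ hΓ T hT hn
    (fun _ : Fin 1 => (∑ i, X i : MvPolynomial (Fin (n + 2)) K))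
    (fun (i : Fin (n + 2)) (_ : Fin 1) => (X i : MvPolynomial (Fin (n + 2)) K)) (smPair n)
    (by omega) (fun _ => 1) (fun _ => IsHomogeneous.sum _ _ _ fun i _ => isHomogeneous_X _ _)
    (fun _ => 1) (fun i _ => isHomogeneous_X _ _) Fin.castSucc r M B (ε / (1 + ε)) hε0
  have hd : (0 : ℝ) < Module.finrank ℚ K := by
    exact_mod_cast Module.finrank_pos
  refine ⟨δ, Φ, k, (1 + ε) * (|C| / Module.finrank ℚ K), hδ, hΦh, hΦ0, ?_⟩
  intro z ρ τ hz hsum hzΦ hρ0 hτ0 hρT hτT hsz hsρ hdiv
  have hz0 : z ≠ 0 := ne_of_coord (hz 0)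
  have hord : ∀ (v : HeightOneSpectrum (𝓞 K)) (z : K), z ≠ 0 → 0 ≤ ord v z →
      Pool.Agent.W180.OP.fv v z ≤ 1 := by
    intro v z hz hv
    have h1 : ord v z = -Real.log (Pool.Agent.W180.OP.fv v z) := rfl
    rw [h1] at hv
    by_contra hcon
    push Not at hcon
    have := Real.log_pos hcon
    linarith
  have hderiv : ∀ y : Fin (n + 2), aeval z (pderiv y (∑ i, X i : MvPolynomial (Fin (n + 2)) K)) =
      1 := by
    intro y
    rw [map_sum, map_sum]
    simp only [pderiv_X]
    rw [Finset.sum_eq_single y]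
    · rw [Pi.single_eq_same, map_one]
    · intro b _ hb
      rw [Pi.single_eq_of_ne hb, map_zero]
    · intro h
      exact absurd (Finset.mem_univ y) h
  have key := hmain z ρ τ (tb K n) hz0 (fun _ => by
    rw [map_sum]
    simp only [aeval_X]
    exact hsum) hzΦ (fun i => ⟨0, by rw [aeval_X]; exact hz i⟩) hρ0 hτ0
    (fun v hv => hord v ρ hρ0 (hρT v hv)) (fun v hv => hord v τ hτ0 (hτT v hv)) hsz hsρ (by
      intro v hv
      have h1 := hdiv v hv
      have h2 : (M : ℝ) * ord v ρ + ord v τ =
          -(M * Real.log (Pool.Agent.W180.OP.fv v ρ) +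
            Real.log (Pool.Agent.W180.OP.fv v τ)) := by
        have e1 : ord v ρ = -Real.log (Pool.Agent.W180.OP.fv v ρ) := rfl
        have e2 : ord v τ = -Real.log (Pool.Agent.W180.OP.fv v τ) := rfl
        rw [e1, e2]
        ring
      rw [h2] at h1
      refine le_trans (le_of_eq ?_) h1
      unfold divisorOrder
      refine Finset.sum_congr rfl fun i _ => ?_
      have e3 : nm (Pool.Agent.W180.OP.fv v) (fun _ : Fin 1 => aeval z
          (X i : MvPolynomial (Fin (n + 2)) K)) = FinitePlace.mk v (z i) := by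
        simp only [aeval_X]
        obtain ⟨j, hj⟩ := exists_nm (f := Pool.Agent.W180.OP.fv v) fun _ : Fin 1 => z i
        rw [← hj]
        rfl
      rw [pow_one, e3]
      rfl) (tb_indep n) (fun _ c => by
        simp only [hderiv, one_mul]
        exact tb_sum n c)
  have hmin := logHeight_nonneg (fun J : Fin (n + 1) → Fin (n + 2) =>
    ((tb K n).submatrix J id).det)
  have hsingle : ∀ i : Fin (n + 2), logHeight (fun _ : Fin 1 => aeval z
      (X i : MvPolynomial (Fin (n + 2)) K)) = 0 := by
    intro i
    have e1 : (fun _ : Fin 1 => aeval z (X i : MvPolynomial (Fin (n + 2)) K)) =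
        z i • (fun _ : Fin 1 => (1 : K)) := by
      funext j
      rw [aeval_X, Pi.smul_apply, smul_eq_mul, mul_one]
    rw [e1, logHeight_smul_eq_logHeight _ (hz i)]
    have e2 := logHeight_fin (fun _ : Fin 1 => (1 : K)) (ne_of_coord (i := 0) one_ne_zero)
    rw [e2]
    have e3 : ∀ f : AbsoluteValue K ℝ, Real.log (nm f fun _ : Fin 1 => (1 : K)) = 0 := by
      intro f
      obtain ⟨j, hj⟩ := exists_nm (f := f) fun _ : Fin 1 => (1 : K)
      rw [← hj, map_one, Real.log_one]
    simp only [e3, mul_zero, Finset.sum_const_zero, finsum_zero, add_zero]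
  simp only [hsingle, Nat.cast_one, one_mul, sub_zero, Finset.sum_const, Finset.card_univ,
    Fintype.card_fin, nsmul_eq_mul] at key
  push_cast at key
  -- the inequality for the relative height
  have hcnt : ∀ x : K, Pool.Agent.Run7.h720.cnt T x = Module.finrank ℚ K * counting T x := by
    intro x
    unfold counting
    rw [mul_div_cancel₀ _ hd.ne']
    rfl
  have hh : logHeight z = Module.finrank ℚ K * height z := by
    unfold height
    rw [mul_div_cancel₀ _ hd.ne']
  rw [hcnt, hcnt, hh] at key
  have hC := le_abs_self C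
  have hCd : |C| = Module.finrank ℚ K * (|C| / Module.finrank ℚ K) := by
    rw [mul_div_cancel₀ _ hd.ne']
  have h1 : (Module.finrank ℚ K : ℝ) * height z ≤ Module.finrank ℚ K *
      (counting T ρ + counting T τ + ε / (1 + ε) * height z + |C| / Module.finrank ℚ K) := by
    have h2 : (Module.finrank ℚ K : ℝ) *
        (counting T ρ + counting T τ + ε / (1 + ε) * height z + |C| / Module.finrank ℚ K) =
        Module.finrank ℚ K * counting T ρ + Module.finrank ℚ K * counting T τ +
          ε / (1 + ε) * (Module.finrank ℚ K * height z) +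
            Module.finrank ℚ K * (|C| / Module.finrank ℚ K) := by ring
    rw [h2, ← hCd]
    linarith
  have h3 := le_of_mul_le_mul_left h1 hd
  have h4 : height z = (1 + ε) * (height z - ε / (1 + ε) * height z) := by
    field_simp
    ring
  have hfirst : height z ≤ (1 + ε) * (counting T ρ + counting T τ) +
      (1 + ε) * (|C| / Module.finrank ℚ K) := by
    rw [h4, ← mul_add]
    refine mul_le_mul_of_nonneg_left ?_ (by linarith)
    linarith
  refine ⟨hfirst, fun hle => hfirst.trans ?_⟩
  have h5 : counting T ρ ≤ rad z := by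
    unfold counting rad
    refine div_le_div_of_nonneg_right ?_ hd.le
    refine finsum_le_finsum' ?_ (localRad_support z hz) fun v => ?_
    · refine (Pool.Agent.Run7.h720.log_fv_support ρ hρ0).subset fun v hv h => hv ?_
      have h2 : Real.log (Pool.Agent.W180.OP.fv v ρ) = 0 := h
      have h3 : ord v ρ = 0 := by
        show -Real.log (Pool.Agent.W180.OP.fv v ρ) = 0
        rw [h2, neg_zero]
      show ∑ᶠ (_ : v ∉ T), ord v ρ = 0
      rw [h3]
      exact finsum_zero
    · rw [finsum_eq_if]
      split_ifs with hv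
      · exact localRad_nonneg v z
      · exact hle v hv
  have h6 : (1 + ε) * (counting T ρ + counting T τ) ≤ (1 + ε) * (rad z + counting T τ) :=
    mul_le_mul_of_nonneg_left (by linarith) (by linarith)
  linarith

end Pool.Agent.Results.MP_7475bd_nt.SparsePointsNumberFields
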