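import Pool.Agent.Run7.h430.TW.Kit
import Pool.Agent.Results.MP_7475bd_nt.MultiplicativeValues

/-!
# The `n`-term abc inequality over `ℚ` for all points whose radicals are near almost all orbits of Euler's function

Let `φ_k` be the `k`-th iterate of Euler's function, `φ_0(m) = m`. Let `f` be a positive multiplicative function of at most
polynomial growth such that `f p ≤ M p` for the large primes `p`, with different values at different large primes; for example
the identity, Euler's function or the sum of the divisors. Let `G` have steps bounded below by a positive constant and growth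
at most `v ^ d`, for example `G v = α v ^ d`. Let `n ≥ 3`, `A > 1 / n`, `M > 1 / n` (for example `M = 1 + ε`) and `c` real. There is
`ν > 0` such that, if `κ ≥ 0` and `d ((n - 1) / n - ν) + κ < 1`, there is `K(m)` tending to infinity such that the following holds
for almost all `m`, for ALL `k, a ≤ K(m)`, `a ≥ 1`, with `v = f(φ_k(m))`: ALL points `z` over `ℚ` of the hyperplane
`z_1 + ⋯ + z_n = 0` with nonzero coordinates, of height at most the `A`-th power of the product `R(z)` of the radicals of the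
coordinates, and with `|R(z) - a G(v)| ≤ K(m) v ^ κ`, satisfy `h(z) < M rad(z) + c`.

There are `X ^ ((n - 1) / n + o(1))` points with `R(z) ≤ X`, so that the windows with `d (n - 1) / n + κ > 1` contain many points.
The iterates of Euler's function are not multiplicative, and the values `φ_k(m)`, `m ≤ N`, form a thin set and are taken with
very large multiplicities; so this does not follow from the number of the exceptional points (`ExceptionsOffClosedSubsets`,
starting files), which is used here. The tool is `Pool.Agent.N760.IT` (starting files), in the form of `Run7/h430/TW/Kit`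
(multiples and enlarged windows).
-/

set_option autoImplicit false

namespace Pool.Agent.Results.MP_7475bd_nt.TotientOrbits

open Finset Filter Topology
open MultiplicativeValues (h rad prodRad Point log_prodRad prodRad_pos)

/-- A positive multiplicative function of at most polynomial growth, at most `M p` at the large primes `p` and with different
values at different large primes. -/
structure Moderate (f : ℕ → ℕ) : Prop where
  mul : ∀ m n : ℕ, Nat.Coprime m n → f (m * n) = f m * f n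
  pos : ∀ m : ℕ, 1 ≤ m → 1 ≤ f m
  growth : ∃ C D : ℕ, ∀ m : ℕ, 1 ≤ m → f m ≤ C * m ^ D
  prime : ∃ P M : ℕ, ∀ p : ℕ, P ≤ p → p.Prime → f p ≤ M * p ∧ ∀ q : ℕ, P ≤ q → q.Prime → f q = f p → q = p

/-- The steps of `G` are at least a positive constant, and `G` grows at most like `v ^ d`, `d ≥ 1`. -/
structure Expanding (G : ℕ → ℝ) (d : ℝ) : Prop where
  one_le : 1 ≤ d
  step : ∃ a : ℝ, 0 < a ∧ ∀ v : ℕ, 1 ≤ v → a ≤ G (v + 1) - G v
  growth : ∃ C : ℝ, ∀ v : ℕ, 1 ≤ v → G v ≤ C * (v : ℝ) ^ d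

open Classical in
/-- The proportion of the positive integers `m ≤ N` without the property `P` tends to `0`. -/
def AlmostAll (P : ℕ → Prop) : Prop :=
  Tendsto (fun N : ℕ => (((Icc 1 N).filter (fun m => ¬ P m)).card : ℝ) / N) atTop (𝓝 0)

/-- the value of `f` at the `k`-th iterate of Euler's function -/
def orb (f : ℕ → ℕ) (k m : ℕ) : ℕ := f (Nat.totient^[k] m)

theorem lm_of {f : ℕ → ℕ} (hf : Moderate f) : Pool.Agent.N733.TG.LM f := ⟨hf.mul, hf.pos, hf.growth, hf.prime⟩

theorem of_lm {f : ℕ → ℕ} (hf : Pool.Agent.N733.TG.LM f) : Moderate f := ⟨hf.mul, hf.pos, hf.growth, hf.prime⟩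

theorem ex_of {G : ℕ → ℝ} {d : ℝ} (h : Expanding G d) : Pool.Agent.N733.TG.Expanding G d := ⟨h.one_le, h.step, h.growth⟩

/-- **Theorem.** Let `n ≥ 3`, `A > 1 / n`, `M > 1 / n` and `c` real. There is `ν > 0` such that for all `f`, `G`, `κ ≥ 0` with
`d ((n - 1) / n - ν) + κ < 1` there is `K(m)` tending to infinity such that for almost all `m`, for all `k, a ≤ K(m)`, `a ≥ 1`,
ALL points `z` (`Point`) with `|R(z) - a G (v)| ≤ K(m) v ^ κ`, `v = f(φ_k(m))`, `R(z)` the product of the radicals of the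
coordinates, satisfy `h(z) < M rad(z) + c`. -/
theorem result :
    (∀ n : ℕ, 3 ≤ n → ∀ A M c : ℝ, (1 : ℝ) / n < A → (1 : ℝ) / n < M → ∃ ν : ℝ, 0 < ν ∧
      ∀ f : ℕ → ℕ, Moderate f → ∀ (G : ℕ → ℝ) (d κ : ℝ), Expanding G d → 0 ≤ κ → d * (((n : ℝ) - 1) / n - ν) + κ < 1 →
      ∃ K : ℕ → ℕ, Tendsto K atTop atTop ∧ AlmostAll (fun m => ∀ k ≤ K m, ∀ a : ℕ, 1 ≤ a → a ≤ K m →
        ∀ z : Fin n → ℤ, Point A z → |(prodRad z : ℝ) - a * G (orb f k m)| ≤ K m * (orb f k m : ℝ) ^ κ →
          h z < M * rad z + c)) ∧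
    (Moderate (fun m => m) ∧ Moderate Nat.totient ∧ Moderate (fun m => ∑ d ∈ m.divisors, d)) ∧
    ∀ a d : ℝ, 0 < a → 1 ≤ d → Expanding (fun v => a * (v : ℝ) ^ d) d := by
  refine ⟨fun n hn A M c hA hM => ?_,
    ⟨of_lm Pool.Agent.N760.IT.lm_id, of_lm Pool.Agent.N733.TG.lm_totient, of_lm Pool.Agent.N733.TG.lm_sigma⟩,
    fun a d ha hd => ?_⟩
  · have hn' : (3 : ℝ) ≤ n := by exact_mod_cast hn
    have hn0 : (0 : ℝ) < 1 / n := by positivity
    have hA0 : 0 < A := hn0.trans hA
    obtain ⟨h1, -, h2, -⟩ := ExceptionsOffClosedSubsets.result n hn A hA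
    obtain ⟨ν, hν, C, hC⟩ := h2 M hM c
    have hg : 0 < ((n : ℝ) - 1) / n := div_pos (by linarith) (by linarith)
    obtain ⟨ν', hν'⟩ : ∃ ν', ν' = min ν (((n : ℝ) - 1) / n) := ⟨_, rfl⟩
    have hν'0 : 0 < ν' := by rw [hν']; exact lt_min hν hg
    have hν'1 : ν' ≤ ν := by rw [hν']; exact min_le_left _ _
    have hν'2 : ν' ≤ ((n : ℝ) - 1) / n := by rw [hν']; exact min_le_right _ _
    refine ⟨ν', hν'0, fun f hf G d κ hG hκ h3 => ?_⟩
    have hcount : ∃ C₁ : ℝ, ∀ X : ℝ, 1 ≤ X →
        {z : Fin n → ℤ | z ∈ {z : Fin n → ℤ | Point A z ∧ ¬ h z < M * rad z + c} ∧ ((prodRad z : ℕ) : ℝ) ≤ X}.Finite ∧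
          ({z : Fin n → ℤ | z ∈ {z : Fin n → ℤ | Point A z ∧ ¬ h z < M * rad z + c} ∧
            ((prodRad z : ℕ) : ℝ) ≤ X}.ncard : ℝ) ≤ C₁ * X ^ (((n : ℝ) - 1) / n - ν') := by
      refine ⟨|C|, fun X hX => ?_⟩
      have hsub : {z : Fin n → ℤ | z ∈ {z : Fin n → ℤ | Point A z ∧ ¬ h z < M * rad z + c} ∧
          ((prodRad z : ℕ) : ℝ) ≤ X} ⊆ ExceptionsOffClosedSubsets.Exceptions n A M c X := by
        rintro z ⟨⟨⟨g1, g2, g3, g4⟩, g5⟩, g6⟩
        have h5 : Real.log (prodRad z) ≤ Real.log X :=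
          Real.log_le_log (by exact_mod_cast prodRad_pos z) g6
        refine ⟨⟨g1, g2, g3, ?_, ?_⟩, ?_⟩
        · exact g4.trans (mul_le_mul_of_nonneg_left h5 hA0.le)
        · rw [← log_prodRad]
          exact h5
        · exact not_lt.1 g5
      have hfin : (ExceptionsOffClosedSubsets.Exceptions n A M c X).Finite := (h1 X).subset fun z hz => hz.1
      refine ⟨hfin.subset hsub, ?_⟩
      have h5 : ((ExceptionsOffClosedSubsets.Exceptions n A M c X).ncard : ℝ) ≤ |C| * X ^ (((n : ℝ) - 1) / n - ν') := by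
        refine (hC X hX).trans ?_
        have e1 : X ^ (((n : ℝ) - 1) / n - ν) ≤ X ^ (((n : ℝ) - 1) / n - ν') :=
          Real.rpow_le_rpow_of_exponent_le hX (by linarith)
        have e2 : 0 < X ^ (((n : ℝ) - 1) / n - ν) := by positivity
        calc C * X ^ (((n : ℝ) - 1) / n - ν) ≤ |C| * X ^ (((n : ℝ) - 1) / n - ν) :=
              mul_le_mul_of_nonneg_right (le_abs_self C) e2.le
          _ ≤ _ := mul_le_mul_of_nonneg_left e1 (abs_nonneg C)
      refine le_trans ?_ h5
      exact_mod_cast Set.ncard_le_ncard hsub hfin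
    obtain ⟨K, hK, h4⟩ := Run7.h430.TW.kit' {z : Fin n → ℤ | Point A z ∧ ¬ h z < M * rad z + c}
      (fun z : Fin n → ℤ => ((prodRad z : ℕ) : ℝ)) (lm_of hf) (ex_of hG) (s := ((n : ℝ) - 1) / n - ν') (by linarith) hκ h3
      hcount
    refine ⟨K, hK, Pool.Agent.N826.IT.Orb.almostAll_mono h4 (fun m hm k hk a ha1 ha z hz hw => ?_)⟩
    by_contra hcon
    exact absurd hw (not_le.2 (hm k hk a ha1 ha z ⟨hz, hcon⟩))
  · obtain ⟨h1, h2, h3⟩ := Pool.Agent.N733.TG.expanding_pow ha hd
    exact ⟨h1, h2, h3⟩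

end Pool.Agent.Results.MP_7475bd_nt.TotientOrbits
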