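import Mathlib
import Pool.Agent.Run7.h585.NF.ShareC

/-!
# The anatomy of the exceptions in the three term case, over every number field

Let `K` be a number field of degree `d` and `n = 3`; the hyperplane `Z_1 + Z_2 + Z_3 = 0` is a line and the inequality of
the question is the abc inequality. For `0 < κ < 1` we consider the points `P` of this line over `K`, with nonzero
coordinates, with `h(P) ≤ T` and `rad (P) ≤ (3 - κ) h(P) + C`, that is, the exceptions to `h(P) < λ rad (P) + C'` with a
factor `λ = 1 / (3 - κ)` between `1/3` and `1/2` (for almost all points `rad (P)` is about `3 h(P)`). For every `ε > 0` all of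
them but a proportion of at most `exp (-δ √(T / log T))` look alike. Let `X = d T` and let `I_l` be the ideal of the
`l`-th coordinate, `(z_l) / (z_1, z_2, z_3)`:

* `h(P) = (1 - o(1)) T`, and at the infinite places the coordinates have the same size up to `exp (o(T))`;
* the radical of each of the three ideals is `(1 - κ/3 + o(1)) T`, so each has the excess `(κ/3 + o(1)) T`;
* (shares) the primes of norm up to `X ^ c` contribute the proportion `max (0, 1 - 1/(2c))` to the excess of each of the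
  three ideals, although these primes contribute only `o(T)` to the radicals;
* (law of the prime powers) the sizes `(v(I_l) - 1) log N(v)` of the single excesses are distributed like
  `√(2κX/(3 log X))` copies of an exponential random variable with mean `√(κ X log X / 6)`, and they are independent of the
  norms: among the primes with an excess `≥ t √(κ X log X / 6)` the proportion `1 - 1/(2c)` has a norm up to `X ^ c`,
  `c ≥ 1/2`, whatever `t` is.
-/

set_option autoImplicit false

namespace Pool.Agent.Results.MP_7475bd_nt.TypicalTriples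

open NumberField IsDedekindDomain Filter Topology

variable {K : Type} [Field K] [NumberField K]

/-- `h(z_0 : z_1 : z_2)`. For a complex place `w` the multiplicity `w.mult` is `2`; `FinitePlace.mk v` is the absolute value
for which a uniformizer has the value `N(v)⁻¹`. -/
noncomputable def height (x : Fin 3 → K) : ℝ :=
  (∑ w : InfinitePlace K, (w.mult : ℝ) * Real.log (max (w (x 0)) (max (w (x 1)) (w (x 2)))) +
    ∑ᶠ v : HeightOneSpectrum (𝓞 K), Real.log
      (max (FinitePlace.mk v (x 0)) (max (FinitePlace.mk v (x 1)) (FinitePlace.mk v (x 2))))) /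
    (Module.finrank ℚ K : ℝ)

/-- `rad (z_0 : z_1 : z_2)`: the sum of `log N(v) / [K : ℚ]` over the primes `v` at which the valuations of the coordinates
are not all equal -/
noncomputable def rad (x : Fin 3 → K) : ℝ :=
  (∑ᶠ (v : HeightOneSpectrum (𝓞 K)) (_ : ¬ (FinitePlace.mk v (x 0) = FinitePlace.mk v (x 1) ∧
      FinitePlace.mk v (x 1) = FinitePlace.mk v (x 2))),
    Real.log (Ideal.absNorm v.asIdeal : ℝ)) / (Module.finrank ℚ K : ℝ)

/-- the largest of the absolute values of the coordinates at `v` -/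
noncomputable def top (v : HeightOneSpectrum (𝓞 K)) (x : Fin 3 → K) : ℝ :=
  max (FinitePlace.mk v (x 0)) (max (FinitePlace.mk v (x 1)) (FinitePlace.mk v (x 2)))

/-- the radical of the `l`-th coordinate: the sum of `log N(v) / d` over the primes `v` dividing the ideal
`I_l = (x_l) / (x_0, x_1, x_2)` -/
noncomputable def radical (l : Fin 3) (x : Fin 3 → K) : ℝ :=
  (∑ᶠ v : HeightOneSpectrum (𝓞 K), (if FinitePlace.mk v (x l) < top v x then
    Real.log (Ideal.absNorm v.asIdeal : ℝ) else 0)) / (Module.finrank ℚ K : ℝ)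

/-- the same with the primes whose square divides this ideal -/
noncomputable def multipleRadical (l : Fin 3) (x : Fin 3 → K) : ℝ :=
  (∑ᶠ v : HeightOneSpectrum (𝓞 K),
    (if FinitePlace.mk v (x l) ≤ top v x * ((Ideal.absNorm v.asIdeal : ℝ) ^ 2)⁻¹ then
      Real.log (Ideal.absNorm v.asIdeal : ℝ) else 0)) / (Module.finrank ℚ K : ℝ)

open Classical in
/-- the excess of this ideal at the primes of norm at most `z`: the sum of `(v(I_l) - 1) log N(v) / d` over the primes
`v ∣ I_l` with `N(v) ≤ z` (`v(I_l) log N(v) = log (top v x / |x_l|_v)`) -/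
noncomputable def excess (z : ℝ) (l : Fin 3) (x : Fin 3 → K) : ℝ :=
  (∑ᶠ v : HeightOneSpectrum (𝓞 K), (if (Ideal.absNorm v.asIdeal : ℝ) ≤ z then
    max 0 (Real.log (top v x / FinitePlace.mk v (x l)) - Real.log (Ideal.absNorm v.asIdeal : ℝ))
      else 0)) / (Module.finrank ℚ K : ℝ)

/-- the number of the primes `v` of norm at most `z` with `(v(I_l) - 1) log N(v) ≥ τ` -/
noncomputable def excessCount (z τ : ℝ) (l : Fin 3) (x : Fin 3 → K) : ℕ :=
  {v : HeightOneSpectrum (𝓞 K) | (Ideal.absNorm v.asIdeal : ℝ) ≤ z ∧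
    τ ≤ Real.log (top v x / FinitePlace.mk v (x l)) -
      Real.log (Ideal.absNorm v.asIdeal : ℝ)}.ncard

variable (K) in
/-- the points `(x_0 : x_1 : x_2)` with `x_0 + x_1 + x_2 = 0`, `x_0 x_1 x_2 ≠ 0`, `h ≤ T` and `rad ≤ (3 - κ) h + C` -/
def Exceptions (κ C T : ℝ) : Set (Projectivization K (Fin 3 → K)) :=
  {P | ∃ (x : Fin 3 → K) (hx : x ≠ 0), P = Projectivization.mk K x hx ∧ x 0 + x 1 + x 2 = 0 ∧
    x 0 * x 1 * x 2 ≠ 0 ∧ height x ≤ T ∧ rad x ≤ (3 - κ) * height x + C}

variable (K) in
/-- the number of the prime powers: `√(2 κ X / (3 log X))`, `X = d T` -/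
noncomputable def main (κ T : ℝ) : ℝ :=
  √(2 * κ * ((Module.finrank ℚ K : ℝ) * T) / (3 * Real.log ((Module.finrank ℚ K : ℝ) * T)))

variable (K) in
/-- the mean size: `√(κ X log X / 6)`, `X = d T` -/
noncomputable def size (κ T : ℝ) : ℝ :=
  √(κ * ((Module.finrank ℚ K : ℝ) * T) * Real.log ((Module.finrank ℚ K : ℝ) * T) / 6)

variable (K) in
/-- the proportion with norm at most `z`: `max (0, 1 - log X / (2 log z))`, `X = d T` -/
noncomputable def part (T z : ℝ) : ℝ :=
  max 0 (1 - Real.log ((Module.finrank ℚ K : ℝ) * T) / (2 * Real.log z))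

/-- the typical triples -/
structure Typical (κ ε T : ℝ) (x : Fin 3 → K) : Prop where
  height_ge : (1 - ε) * T ≤ height x
  infinite : ∀ (w : InfinitePlace K) (l l' : Fin 3), w (x l) ≤ Real.exp (ε * T) * w (x l')
  radicals : ∀ l : Fin 3, |radical l x - (1 - κ / 3) * T| ≤ ε * T
  multiple : ∀ l : Fin 3, multipleRadical l x ≤ ε * T
  shares : ∀ (l : Fin 3) (z : ℝ), 2 ≤ z → |excess z l x - part K T z * (κ / 3 * T)| ≤ ε * T
  law : ∀ (l : Fin 3) (z t : ℝ), 2 ≤ z → 0 < t →
    |(excessCount z (t * size K κ T) l x : ℝ) - part K T z * Real.exp (-t) * main K κ T| ≤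
      ε * main K κ T

variable (K) in
/-- the exceptions with atypical coordinates -/
def Atypical (κ C ε T : ℝ) : Set (Projectivization K (Fin 3 → K)) :=
  {P | P ∈ Exceptions K κ C T ∧ ∃ (x : Fin 3 → K) (hx : x ≠ 0), P = Projectivization.mk K x hx ∧
    ¬ Typical κ ε T x}

open Pool.Agent.Run7.h585.NF Pool.Agent.W223.AK in
theorem typ_of {κ ε T : ℝ} (hκ : 0 < κ) (hε : 0 < ε) (hT : 2 / ε ≤ T)
    (hT3 : 3 ≤ (Module.finrank ℚ K : ℝ) * T) {x : Fin 3 → K} (hx : Lin x)
    (h : Anat κ (ε / (2 * (Module.finrank ℚ K : ℝ))) ((Module.finrank ℚ K : ℝ) * T) (x 0 / x 1)) :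
    Typical κ ε T x := by
  obtain ⟨⟨h1, h2, h3, -, h5, h6⟩, hlaw, hsh⟩ := h
  have hT0 : 0 < T := lt_of_lt_of_le (by positivity) hT
  obtain ⟨d, hd⟩ : ∃ d : ℝ, d = (Module.finrank ℚ K : ℝ) := ⟨_, rfl⟩
  have hd1 : 1 ≤ d := by
    rw [hd]
    exact_mod_cast (Module.finrank_pos (R := ℚ) (M := K))
  have hd0 : 0 < d := by linarith
  rw [← hd] at h1 h2 h3 h5 h6 hlaw hsh hT3
  clear h6
  have hεd : ε / (2 * d) * (d * T) = ε * T / 2 := by field_simp
  have hεd2 : ε / (2 * d) ≤ ε := div_le_self hε.le (by linarith)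
  have hεT : 0 < ε * T := by positivity
  have hεT2 : 2 ≤ ε * T := by
    rw [div_le_iff₀ hε] at hT
    linarith
  have hH : H3 x = d * height x := by
    unfold height
    rw [← hd, mul_div_cancel₀ _ hd0.ne']
    rfl
  have hr : ∀ l, cd3 l x = d * radical l x := by
    intro l
    unfold radical
    rw [← hd, mul_div_cancel₀ _ hd0.ne']
    rfl
  have hs : ∀ l, sqd3 l x = d * multipleRadical l x := by
    intro l
    unfold multipleRadical
    rw [← hd, mul_div_cancel₀ _ hd0.ne']
    rfl
  have he : ∀ z l, exz3 z l x = d * excess z l x := by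
    intro z l
    unfold excess
    rw [← hd, mul_div_cancel₀ _ hd0.ne']
    rfl
  have e1 : size K κ T = lam κ (d * T) := by
    rw [lam_eq hκ hT3, hd]
    rfl
  have e2 : ∀ z, part K T z = pr (d * T) z := fun z => by rw [hd]; rfl
  have e3 : main K κ T = s1 κ (d * T) := by rw [hd]; rfl
  refine ⟨?_, fun w l l' => ?_, fun l => ?_, fun l => ?_, fun l z hz => ?_, fun l z t hz ht => ?_⟩
  · have h7 := h1.trans hx.H3.1
    rw [hH] at h7
    have h8 : (1 - ε) * (d * T) ≤ (1 - ε / (2 * d)) * (d * T) :=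
      mul_le_mul_of_nonneg_right (by linarith) (by positivity)
    have h9 : d * ((1 - ε) * T) ≤ d * height x := by linarith
    exact le_of_mul_le_mul_left h9 hd0
  · rw [hεd] at h2
    refine (hx.inf h2 w l l').trans ?_
    apply mul_le_mul_of_nonneg_right _ (apply_nonneg _ _)
    have h7 : (2 : ℝ) ≤ Real.exp (ε * T / 2) := by
      have := Real.add_one_le_exp (ε * T / 2)
      linarith
    calc 2 * Real.exp (ε * T / 2) ≤ Real.exp (ε * T / 2) * Real.exp (ε * T / 2) :=
          mul_le_mul_of_nonneg_right h7 (Real.exp_pos _).le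
      _ = Real.exp (ε * T) := by rw [← Real.exp_add]; congr 1; ring
  · have h7 := h5 l
    rw [hx.rl_eq, hr, hεd] at h7
    have e : d * radical l x - (1 - κ / 3) * (d * T) = d * (radical l x - (1 - κ / 3) * T) := by ring
    rw [e, abs_mul, abs_of_pos hd0] at h7
    have h8 : 0 ≤ |radical l x - (1 - κ / 3) * T| := abs_nonneg _
    nlinarith
  · have h7 : rl (Ef (x 0 / x 1) l) ≤ Pool.Agent.N906.RS.tr (Ef (x 0 / x 1)) := by
      unfold Pool.Agent.N906.RS.tr
      exact Finset.single_le_sum (f := fun l => rl (Ef (x 0 / x 1) l)) (fun l _ => rl_nonneg _)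
        (Finset.mem_univ l)
    rw [hx.rl_eq2] at h7
    have h8 := h7.trans h3
    rw [hεd] at h8
    have h9 := sqd3_nonneg l x
    rw [hs] at h8 h9
    have h10 : 0 ≤ multipleRadical l x := by
      by_contra hc
      rw [not_le] at hc
      nlinarith
    nlinarith
  · have h7 := hsh l z hz
    rw [hx.lenT_eq, he, ← e2, hεd] at h7
    have e : d * excess z l x - part K T z * (κ / 3 * (d * T)) =
        d * (excess z l x - part K T z * (κ / 3 * T)) := by ring
    rw [e, abs_mul, abs_of_pos hd0] at h7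
    have h8 : 0 ≤ |excess z l x - part K T z * (κ / 3 * T)| := abs_nonneg _
    nlinarith
  · have h0 := lam_pos hκ hT3
    have h7 := hlaw l z (t * lam κ (d * T)) hz (by positivity)
    rw [hx.cntE_eq l z (by positivity), mul_div_cancel_right₀ _ h0.ne'] at h7
    have e4 : excessCount z (t * size K κ T) l x = pwn3 z (t * lam κ (d * T)) l x := by
      rw [e1]
      rfl
    rw [e4, e2, e3]
    refine h7.trans ?_
    exact mul_le_mul_of_nonneg_right hεd2 (s1_nonneg _ _)

open Pool.Agent.Run7.h585.NF Pool.Agent.W223.AK Pool.Agent.N906.RS Pool.Agent.H691R3 in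
/-- **The typical exceptions for three terms.** Let `K` be a number field, `0 < κ < 1`, `C ≥ 0` and `ε > 0`. There
are `δ > 0` and `T₀` such that, for `T ≥ T₀`, the set of the points with `h ≤ T` and `rad ≤ (3 - κ) h + C` is
finite and all but at most the proportion `exp (-δ √(T / log T))` of them are typical. -/
theorem result : ∀ (K : Type) [Field K] [NumberField K] (κ C ε : ℝ), 0 < κ → κ < 1 → 0 ≤ C → 0 < ε →
    ∃ δ T₀ : ℝ, 0 < δ ∧ ∀ T : ℝ, T₀ ≤ T → (Exceptions K κ C T).Finite ∧
      ((Atypical K κ C ε T).ncard : ℝ) ≤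
        Real.exp (-(δ * √(T / Real.log T))) * (Exceptions K κ C T).ncard := by
  intro K _ _ κ C ε hκ hκ1 hC hε
  obtain ⟨d, hd⟩ : ∃ d : ℝ, d = (Module.finrank ℚ K : ℝ) := ⟨_, rfl⟩
  have hd1 : 1 ≤ d := by
    rw [hd]
    exact_mod_cast (Module.finrank_pos (R := ℚ) (M := K))
  have hd0 : 0 < d := by linarith
  have hloss : 0 ≤ lossK K := by
    have hb := (Lin.w3 (K := K) (t := 1) ⟨one_ne_zero, by norm_num⟩).H3
    linarith [hb.1, hb.2]
  obtain ⟨δ, X₀, hδ, hX₀, h⟩ := prop_rare K κ (d * C + 3 * lossK K) (lossK K) hκ hκ1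
    (by positivity) hloss (fun X x => ¬ Anat κ (ε / (2 * d)) X x)
    (rare_anat κ (d * C + 3 * lossK K) (ε / (2 * d)) hκ hκ1 (by positivity) (by positivity))
  refine ⟨δ * √(κ * d / 3), max (max (max X₀ 3) d) (2 / ε), by positivity, fun T hT => ?_⟩
  have hTa : X₀ ≤ T :=
    (((le_max_left _ _).trans (le_max_left _ _)).trans (le_max_left _ _)).trans hT
  have hT3 : 3 ≤ T :=
    (((le_max_right _ _).trans (le_max_left _ _)).trans (le_max_left _ _)).trans hT
  have hTd : d ≤ T := ((le_max_right _ _).trans (le_max_left _ _)).trans hT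
  have hTε : 2 / ε ≤ T := (le_max_right _ _).trans hT
  have hT0 : 0 < T := by linarith
  have hH : ∀ x : Fin 3 → K, H3 x = d * height x := by
    intro x
    unfold height
    rw [← hd, mul_div_cancel₀ _ hd0.ne']
    rfl
  have hR : ∀ x : Fin 3 → K, R3 ∅ x = d * rad x := by
    intro x
    unfold rad
    rw [← hd, mul_div_cancel₀ _ hd0.ne']
    unfold R3
    refine finsum_congr fun v => ?_
    refine finsum_congr_Prop ?_ fun _ => rfl
    simp
  obtain ⟨f, hf⟩ : ∃ f : K → Projectivization K (Fin 3 → K),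
    f = fun t => Projectivization.mk K (w3 t) (w3_ne t) := ⟨_, rfl⟩
  have hfinj : Function.Injective f := by rw [hf]; exact w3_inj
  have hft : ∀ t, f t = Projectivization.mk K (w3 t) (w3_ne t) := fun t => by rw [hf]
  obtain ⟨A, hA⟩ : ∃ A : Set K, A = {t | f t ∈ Exceptions K κ C T} := ⟨_, rfl⟩
  have hpt : ∀ t ∈ A, ∃ (x : Fin 3 → K) (hx : x ≠ 0), Lin x ∧ x 0 / x 1 = t ∧ height x ≤ T ∧
      rad x ≤ (3 - κ) * height x + C := by
    intro t ht
    rw [hA] at ht
    obtain ⟨x, hx, g1, g2, g3, g4, g5⟩ := ht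
    have hl : Lin x := ⟨g2, g3⟩
    rw [hft] at g1
    exact ⟨x, hx, hl, hl.div_eq hx g1, g4, g5⟩
  obtain ⟨hfin, hB⟩ := h (d * T) (by nlinarith) A (by
    intro t ht h1 h2
    rw [hA]
    have hl := Lin.w3 ht
    have e : w3 t 0 / w3 t 1 = t := hl.div_eq (w3_ne t) rfl
    have hb := hl.H3
    have hr := hl.R3
    rw [e] at hb hr
    refine ⟨w3 t, w3_ne t, hft t, hl.sum, hl.prod, ?_, ?_⟩
    · have h3 : d * height (w3 t) ≤ d * T := by
        rw [← hH]
        linarith
      exact le_of_mul_le_mul_left h3 hd0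
    · have h3 : d * rad (w3 t) ≤ d * ((3 - κ) * height (w3 t) + C) := by
        rw [← hR, hr, mul_add, show d * ((3 - κ) * height (w3 t)) = (3 - κ) * (d * height (w3 t)) by
          ring, ← hH]
        have h4 := mul_le_mul_of_nonneg_left hb.1 (by linarith : (0 : ℝ) ≤ 3 - κ)
        have h5 : 0 ≤ d * C := by positivity
        linarith
      exact le_of_mul_le_mul_left h3 hd0) (by
    intro t ht
    obtain ⟨x, hx, hl, rfl, g4, g5⟩ := hpt t ht
    refine ⟨hl.pt, ?_, ?_⟩
    · have h3 := hl.H3.1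
      rw [hH] at h3
      exact h3.trans (mul_le_mul_of_nonneg_left g4 hd0.le)
    · rw [← hl.R3, hR]
      have h3 := hl.H3.2
      rw [hH] at h3
      have h4 := mul_le_mul_of_nonneg_left g5 hd0.le
      have h5 := mul_le_mul_of_nonneg_left h3 (by linarith : (0 : ℝ) ≤ 3 - κ)
      have h6 := mul_nonneg hκ.le hloss
      linarith [show d * ((3 - κ) * height x + C) = (3 - κ) * (d * height x) + d * C by ring,
        show (3 - κ) * (W223.AK.ht (x 0 / x 1) + lossK K) = (3 - κ) * W223.AK.ht (x 0 / x 1) +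
          3 * lossK K - κ * lossK K by ring])
  have hV : Exceptions K κ C T = f '' A := by
    ext P
    constructor
    · intro hP
      obtain ⟨x, hx, g1, g2, g3, g4, g5⟩ := id hP
      have hl : Lin x := ⟨g2, g3⟩
      have e : f (x 0 / x 1) = P := by rw [hft, mk_w3 hl hx, g1]
      refine ⟨x 0 / x 1, ?_, e⟩
      rw [hA]
      show f (x 0 / x 1) ∈ Exceptions K κ C T
      rw [e]
      exact hP
    · rintro ⟨t, ht, rfl⟩
      rw [hA] at ht
      exact ht
  have hfin' : (Exceptions K κ C T).Finite := by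
    rw [hV]
    exact hfin.image _
  refine ⟨hfin', ?_⟩
  obtain ⟨B, hBdef⟩ : ∃ B : Set K, B = {t | f t ∈ Atypical K κ C ε T} := ⟨_, rfl⟩
  have hBA : B ⊆ A := by
    rw [hBdef, hA]
    exact fun t ht => ht.1
  have h1 := hB B hBA (by
    intro t ht htyp
    have hp : Pt t := by
      obtain ⟨x, hx, hl, rfl, -⟩ := hpt t (hBA ht)
      exact hl.pt
    rw [hBdef] at ht
    obtain ⟨-, x, hx, g1, g2⟩ := ht
    rw [hft] at g1
    obtain ⟨hl, e⟩ := Lin.of_eq hp g1
    apply g2
    refine typ_of hκ hε hTε ?_ hl ?_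
    · rw [← hd]
      nlinarith
    · rw [← hd, e]
      exact htyp)
  have hAt : Atypical K κ C ε T = f '' B := by
    ext P
    constructor
    · intro hP
      have hP1 := hP.1
      rw [hV] at hP1
      obtain ⟨t, ht, rfl⟩ := hP1
      exact ⟨t, by rw [hBdef]; exact hP, rfl⟩
    · rintro ⟨t, ht, rfl⟩
      rw [hBdef] at ht
      exact ht
  rw [hV, hAt, Set.ncard_image_of_injective _ hfinj, Set.ncard_image_of_injective _ hfinj]
  refine h1.trans ?_
  apply mul_le_mul_of_nonneg_right _ (Nat.cast_nonneg _)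
  apply Real.exp_le_exp.2
  have h2 := s1_ge (κ := κ) hκ.le hd1 hT3 hTd
  have h3 := mul_le_mul_of_nonneg_left h2 hδ.le
  linarith

end Pool.Agent.Results.MP_7475bd_nt.TypicalTriples
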